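import Pool.Agent.H89.U3.Stmts

/-! BIG: large odd part. -/

namespace Pool.Agent.H14.U3

open Pool.Agent.H26.U Pool.Agent.H15.U Pool.Agent.H89.MOD Pool.Agent.H89.U3

lemma log_facts {k : ℕ} (hk : 8 ≤ k) : 3 * (2 ^ Nat.log 2 (k / 8) + 1) + Nat.log 2 (k / 8) ≤ k ∧
    k < 16 * 2 ^ Nat.log 2 (k / 8) := by
  set m := k / 8 with hm
  have hm0 : m ≠ 0 := by omega
  set e := Nat.log 2 m with he
  have h1 : 2 ^ e ≤ m := Nat.pow_log_le_self 2 hm0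
  have h2 : m < 2 ^ (e + 1) := Nat.lt_pow_succ_log_self (by norm_num) m
  have h3 : e < 2 ^ e := Nat.lt_two_pow_self
  have h4 : 2 ^ (e + 1) = 2 * 2 ^ e := by rw [pow_succ]; ring
  omega

theorem BIG (hS : S_SEQC) (hW : S_WFAM) : S_BIG := by
  obtain ⟨K, n0, hW⟩ := hW
  refine ⟨32 * (K + 2), max n0 3, 1 / 32, by norm_num, ?_⟩
  intro k n hk hodd hn
  have hn3 : 3 ≤ n := le_trans (le_max_right _ _) hn
  have hn0 : n0 ≤ n := le_trans (le_max_left _ _) hn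
  have : NeZero n := ⟨by omega⟩
  obtain ⟨h1, h2⟩ := log_facts (k := k) (by omega)
  set e := Nat.log 2 (k / 8) with he
  obtain ⟨p, hp⟩ : ∃ p, 2 ^ e = K + 2 + p := ⟨2 ^ e - (K + 2), by omega⟩
  obtain ⟨U, R, v, hU, hR, hvc, hvi, hvn, hv⟩ := hW n hodd hn0 p
  have key : ∀ m : ℕ, m = K + 1 + p → ∃ w : (Fin ((p + 1) * n) → ℝ) → Fin m → ZMod n → ℂ,
      Continuous w ∧ Function.Injective w ∧ (∀ s j y, ‖w s j y‖ = 1) ∧
      (∀ s x, x ≠ 0 → acf U x + acf R x + ∑ j, acf (w s j) x = 0) := by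
    rintro _ rfl
    exact ⟨v, hvc, hvi, hvn, hv⟩
  obtain ⟨w, hwc, hwi, hwn, hw⟩ := key (2 ^ e - 1) (by omega)
  have hF := hS (2 ^ e) n Nat.one_le_two_pow hodd hn3 U R ((p + 1) * n) w hU hR hwc hwi hwn hw
  refine ⟨(p + 1) * n, ?_, ?_⟩
  · have h5 : (k : ℝ) ≤ 32 * ((p : ℝ) + 1) := by
      have : k ≤ 32 * (p + 1) := by omega
      exact_mod_cast this
    have h6 : (0 : ℝ) ≤ n := Nat.cast_nonneg n
    push_cast
    nlinarith
  · have h7 := hF.double (k - (3 * (2 ^ e + 1) + e))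
    have h8 : 2 ^ (k - (3 * (2 ^ e + 1) + e)) * (8 ^ (2 ^ e + 1) * (2 * 2 ^ e * n)) =
        2 * (2 ^ k * n) := by
      have h9 : (8 : ℕ) ^ (2 ^ e + 1) = 2 ^ (3 * (2 ^ e + 1)) := by
        rw [pow_mul]; norm_num
      have h10 : (2 : ℕ) ^ k = 2 ^ (k - (3 * (2 ^ e + 1) + e)) * (2 ^ (3 * (2 ^ e + 1)) * 2 ^ e) := by
        rw [← pow_add, ← pow_add]
        congr 1
        omega
      rw [h9, h10]
      ring
    rwa [h8] at h7

end Pool.Agent.H14.U3
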